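import Pool.Agent.Helper76.PB.GoalsF

/-!
# Project B (MP_fc6b1e_nt): packet X_HQ

The Herbrand quotient of a module over a cyclic group of prime order, with vanishing first cohomology.
-/

set_option autoImplicit false

namespace Pool.Agent.Helper50.PB

open Polynomial Module

section poly

/-- In `ℤ[X]` modulo the cyclotomic polynomial `p` is the product of `(X - 1)^(p-1)` and a unit. -/
theorem exists_UV (p : ℕ) (hp : p.Prime) : ∃ U V : ℤ[X],
    cyclotomic p ℤ ∣ (X - 1) ^ (p - 1) * U - (p : ℤ[X]) ∧ cyclotomic p ℤ ∣ U * V - 1 := by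
  obtain ⟨ζ, hζ⟩ : ∃ ζ : ℂ, IsPrimitiveRoot ζ p := ⟨_, Complex.isPrimitiveRoot_exp p hp.ne_zero⟩
  let R := (aeval ζ : ℤ[X] →ₐ[ℤ] ℂ).range
  let z : R := ⟨ζ, X, aeval_X ζ⟩
  have hz : IsPrimitiveRoot z p := by
    refine IsPrimitiveRoot.of_map_of_injective (f := R.val) (ζ := z) hζ Subtype.val_injective
  have hdvd : ∀ P : ℤ[X], aeval ζ P = 0 → cyclotomic p ℤ ∣ P := by
    intro P hP
    rw [cyclotomic_eq_minpoly hζ hp.pos]
    exact minpoly.isIntegrallyClosed_dvd (hζ.isIntegral hp.pos) hP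
  obtain ⟨n, rfl⟩ : ∃ n, p = n + 1 := ⟨p - 1, (Nat.sub_add_cancel hp.one_le).symm⟩
  have h1 := hz.prod_one_sub_pow_eq_order
  have h2 : Associated ((z - 1) ^ n) (∏ k ∈ Finset.range n, (1 - z ^ (k + 1))) := by
    have h3 : (z - 1) ^ n = ∏ k ∈ Finset.range n, (z - 1) := by
      rw [Finset.prod_const, Finset.card_range]
    rw [h3]
    refine Associated.prod _ _ _ fun k hk => ?_
    have hk' := Finset.mem_range.1 hk
    have hcop : (k + 1).Coprime (n + 1) := by
      refine Nat.Coprime.symm ((Nat.Prime.coprime_iff_not_dvd hp).2 fun h => ?_)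
      have := Nat.le_of_dvd (by omega) h
      omega
    have h4 := hz.associated_sub_one_pow_sub_one_of_coprime hcop
    refine h4.trans ?_
    rw [← neg_sub (1 : R)]
    exact Associated.neg_left (Associated.refl _)
  obtain ⟨u, hu⟩ := h2
  rw [h1] at hu
  obtain ⟨U, hU⟩ := (u : R).2
  obtain ⟨V, hV⟩ := ((u⁻¹ : Rˣ) : R).2
  have hU' : aeval ζ U = ((u : R) : ℂ) := hU
  have hV' : aeval ζ V = (((u⁻¹ : Rˣ) : R) : ℂ) := hV
  refine ⟨U, V, hdvd _ ?_, hdvd _ ?_⟩
  · have h5 := congrArg (fun r : R => (r : ℂ)) hu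
    have h6 : (((z - 1) ^ n * (u : R) : R) : ℂ) = (ζ - 1) ^ n * aeval ζ U := by
      rw [hU']; rfl
    have h7 : (((n : R) + 1 : R) : ℂ) = (n : ℂ) + 1 := by push_cast; rfl
    rw [h6, h7] at h5
    rw [Nat.add_sub_cancel, map_sub, map_mul, map_pow, map_sub, aeval_X, map_one, map_natCast, h5]
    push_cast
    ring
  · have h5 : ((u : R) : ℂ) * (((u⁻¹ : Rˣ) : R) : ℂ) = 1 := by
      have h6 := congrArg (fun r : R => (r : ℂ)) (Units.mul_inv u)
      exact h6
    rw [map_sub, map_mul, map_one, hU', hV', h5, sub_self]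

end poly

section grp

/-- `H ∩ K` has index `H.relIndex K` in `K`. -/
theorem card_inf {B : Type*} [AddCommGroup B] (H K : AddSubgroup B) :
    Nat.card ((H ⊓ K : AddSubgroup B)) * H.relIndex K = Nat.card K := by
  have h := AddSubgroup.relIndex_inf_mul_relIndex (⊥ : AddSubgroup B) H K
  rw [bot_inf_eq, AddSubgroup.relIndex_bot_left, AddSubgroup.relIndex_bot_left] at h
  exact h

/-- The kernel of a composition. -/
theorem card_ker_comp {B : Type*} [AddCommGroup B] (φ ψ : B →+ B) :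
    Nat.card (φ.comp ψ).ker = Nat.card ψ.ker * Nat.card ((φ.ker ⊓ ψ.range : AddSubgroup B)) := by
  have h1 := card_inf ψ.ker (φ.comp ψ).ker
  have h2 : ψ.ker ⊓ (φ.comp ψ).ker = ψ.ker := by
    refine inf_eq_left.2 fun x hx => ?_
    rw [AddMonoidHom.mem_ker] at hx ⊢
    rw [AddMonoidHom.comp_apply, hx, map_zero]
  have h3 : (φ.comp ψ).ker.map ψ = φ.ker ⊓ ψ.range := by
    ext x
    constructor
    · rintro ⟨y, hy, rfl⟩
      exact ⟨hy, y, rfl⟩
    · rintro ⟨hx, y, rfl⟩
      exact ⟨y, hx, rfl⟩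
  rw [h2, AddSubgroup.relIndex_ker, h3] at h1
  exact h1.symm

/-- The quotient index by kernel is multiplicative. -/
theorem idx_comp {B : Type*} [AddCommGroup B] (φ ψ : B →+ B) :
    (φ.comp ψ).range.index * (Nat.card φ.ker * Nat.card ψ.ker) =
      φ.range.index * ψ.range.index * Nat.card (φ.comp ψ).ker := by
  have h1 : (φ.comp ψ).range = ψ.range.map φ := (AddMonoidHom.map_range φ ψ).symm
  have h2 := AddSubgroup.index_map ψ.range φ
  have h3 := AddSubgroup.relIndex_mul_index (H := ψ.range) (K := ψ.range ⊔ φ.ker) le_sup_left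
  have h4 : ψ.range.relIndex (ψ.range ⊔ φ.ker) = ψ.range.relIndex φ.ker :=
    AddSubgroup.relIndex_sup_left _ _
  have h5 := card_inf ψ.range φ.ker
  rw [inf_comm] at h5
  rw [h1, h2, card_ker_comp, ← h5, ← h3, h4]
  ring

theorem finite_ker_comp {B : Type*} [AddCommGroup B] (φ ψ : B →+ B) [Finite φ.ker]
    [Finite ψ.ker] : Finite (φ.comp ψ).ker := by
  refine Nat.finite_of_card_ne_zero ?_
  rw [card_ker_comp]
  have : Finite ((φ.ker ⊓ ψ.range : AddSubgroup B)) :=
    Finite.of_injective (AddSubgroup.inclusion (inf_le_left : φ.ker ⊓ ψ.range ≤ φ.ker))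
      (AddSubgroup.inclusion_injective _)
  exact mul_ne_zero Nat.card_pos.ne' Nat.card_pos.ne'

/-- Powers. -/
theorem idx_pow {B : Type*} [AddCommGroup B] (d : AddMonoid.End B) [Finite (AddMonoidHom.ker d)]
    (k : ℕ) : Finite (AddMonoidHom.ker (d ^ k : AddMonoid.End B)) ∧
    (AddMonoidHom.range (d ^ k : AddMonoid.End B)).index * Nat.card (AddMonoidHom.ker d) ^ k =
      (AddMonoidHom.range d).index ^ k *
        Nat.card (AddMonoidHom.ker (d ^ k : AddMonoid.End B)) := by
  induction k with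
  | zero =>
    have e : (d ^ 0 : AddMonoid.End B) = AddMonoidHom.id B := rfl
    have h1 : AddMonoidHom.ker (AddMonoidHom.id B) = ⊥ :=
      (AddMonoidHom.ker_eq_bot_iff _).2 Function.injective_id
    have h2 : AddMonoidHom.range (AddMonoidHom.id B) = ⊤ :=
      AddMonoidHom.range_eq_top.2 Function.surjective_id
    rw [e, h1, h2]
    refine ⟨inferInstance, ?_⟩
    simp
  | succ k ih =>
    obtain ⟨ih1, ih2⟩ := ih
    have e : (d ^ (k + 1) : AddMonoid.End B) = AddMonoidHom.comp (d ^ k : AddMonoid.End B) d := by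
      rw [pow_succ]; rfl
    have hf := finite_ker_comp (d ^ k : AddMonoid.End B) d
    have h1 := idx_comp (d ^ k : AddMonoid.End B) d
    rw [e]
    refine ⟨hf, ?_⟩
    have hpos : Nat.card (AddMonoidHom.ker (d ^ k : AddMonoid.End B)) ≠ 0 := Nat.card_pos.ne'
    apply Nat.eq_of_mul_eq_mul_left (Nat.pos_of_ne_zero hpos)
    calc _ = (AddMonoidHom.range (AddMonoidHom.comp (d ^ k : AddMonoid.End B) d)).index *
          (Nat.card (AddMonoidHom.ker (d ^ k : AddMonoid.End B)) * Nat.card (AddMonoidHom.ker d)) *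
          Nat.card (AddMonoidHom.ker d) ^ k := by ring
      _ = (AddMonoidHom.range (d ^ k : AddMonoid.End B)).index *
          Nat.card (AddMonoidHom.ker d) ^ k * (AddMonoidHom.range d).index *
          Nat.card (AddMonoidHom.ker (AddMonoidHom.comp (d ^ k : AddMonoid.End B) d)) := by
        rw [h1]; ring
      _ = _ := by rw [ih2]; ring

end grp

section mulp

/-- Multiplication by `p`. -/
def mp (p : ℕ) (G : Type*) [AddCommGroup G] : G →+ G := nsmulAddMonoidHom p

theorem mp_apply (p : ℕ) {G : Type*} [AddCommGroup G] (x : G) : mp p G x = p • x := rfl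

theorem mp_equiv (p : ℕ) {G H : Type*} [AddCommGroup G] [AddCommGroup H] (e : G ≃+ H) :
    (mp p G).range.index = (mp p H).range.index ∧
      Nat.card (mp p G).ker = Nat.card (mp p H).ker ∧ (Finite (mp p H).ker → Finite (mp p G).ker) := by
  have h1 : (mp p G).range.map (e : G →+ H) = (mp p H).range := by
    ext x
    constructor
    · rintro ⟨_, ⟨y, rfl⟩, rfl⟩
      exact ⟨e y, by rw [mp_apply, mp_apply]; exact (map_nsmul e p y).symm⟩
    · rintro ⟨y, rfl⟩
      refine ⟨p • e.symm y, ⟨e.symm y, rfl⟩, ?_⟩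
      rw [mp_apply]
      have : e (p • e.symm y) = p • y := by rw [map_nsmul, AddEquiv.apply_symm_apply]
      exact this
  have h2 : (mp p G).ker ≃ (mp p H).ker := by
    refine Equiv.subtypeEquiv e.toEquiv fun x => ?_
    show p • x = 0 ↔ p • e x = 0
    rw [← map_nsmul, EmbeddingLike.map_eq_zero_iff]
  refine ⟨?_, Nat.card_congr h2, fun h => Finite.of_equiv _ h2.symm⟩
  rw [← h1, AddSubgroup.index_map_equiv]

theorem mp_int (p : ℕ) : (mp p ℤ).range.index = p := by
  have h : (mp p ℤ).range = AddSubgroup.zmultiples (p : ℤ) := by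
    ext x
    rw [AddSubgroup.mem_zmultiples_iff]
    constructor
    · rintro ⟨y, rfl⟩
      exact ⟨y, by rw [mp_apply]; simp [mul_comm]⟩
    · rintro ⟨y, rfl⟩
      exact ⟨y, by rw [mp_apply]; simp [mul_comm]⟩
  rw [h, Int.index_zmultiples]; simp

theorem mp_pi (p n : ℕ) : (mp p (Fin n → ℤ)).range.index = p ^ n := by
  have h : (mp p (Fin n → ℤ)).range =
      AddSubgroup.pi Set.univ (fun _ : Fin n => (mp p ℤ).range) := by
    ext x
    rw [AddSubgroup.mem_pi]
    constructor
    · rintro ⟨y, rfl⟩ i _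
      exact ⟨y i, rfl⟩
    · intro hx
      choose y hy using fun i => hx i (Set.mem_univ i)
      exact ⟨y, funext hy⟩
  rw [h, AddSubgroup.index_pi]
  simp [mp_int]

theorem mp_prod (p : ℕ) (G H : Type*) [AddCommGroup G] [AddCommGroup H] :
    (mp p (G × H)).range.index = (mp p G).range.index * (mp p H).range.index ∧
      Nat.card (mp p (G × H)).ker = Nat.card (mp p G).ker * Nat.card (mp p H).ker := by
  have h1 : (mp p (G × H)).range = ((mp p G).range).prod (mp p H).range := by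
    ext x
    rw [AddSubgroup.mem_prod]
    constructor
    · rintro ⟨y, rfl⟩
      exact ⟨⟨y.1, rfl⟩, ⟨y.2, rfl⟩⟩
    · rintro ⟨⟨a, ha⟩, ⟨b, hb⟩⟩
      exact ⟨(a, b), Prod.ext ha hb⟩
  have h2 : (mp p (G × H)).ker = ((mp p G).ker).prod (mp p H).ker := by
    ext x
    rw [AddSubgroup.mem_prod]
    constructor
    · intro h
      exact ⟨congrArg Prod.fst h, congrArg Prod.snd h⟩
    · rintro ⟨h, h'⟩
      exact Prod.ext h h'
  refine ⟨by rw [h1, AddSubgroup.index_prod], ?_⟩
  rw [h2, Nat.card_congr (AddSubgroup.prodEquiv (mp p G).ker (mp p H).ker).toEquiv, Nat.card_prod]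

theorem mp_free (p : ℕ) (hp : p ≠ 0) (n : ℕ) : Nat.card (mp p (Fin n → ℤ)).ker = 1 := by
  have h : (mp p (Fin n → ℤ)).ker = ⊥ := by
    rw [AddMonoidHom.ker_eq_bot_iff]
    intro x y hxy
    funext i
    have h1 : p • x i = p • y i := congrFun hxy i
    simpa [hp] using h1
  rw [h]; simp

/-- The Herbrand quotient of multiplication by `p`. -/
theorem mp_index (p : ℕ) (hp : p ≠ 0) (G : Type) [AddCommGroup G] [Module.Finite ℤ G] :
    Finite (mp p G).ker ∧
      (mp p G).range.index = p ^ finrank ℤ G * Nat.card (mp p G).ker := by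
  have hfg : AddGroup.FG G := Module.Finite.iff_addGroup_fg.1 inferInstance
  obtain ⟨n, ι, hι, q, hq, e, ⟨f⟩⟩ := AddCommGroup.equiv_free_prod_directSum_zmod (G := G)
  classical
  set T := DirectSum ι (fun i => ZMod (q i ^ e i)) with hT
  have hTfin : Finite T := by
    have hne : ∀ i, NeZero (q i ^ e i) := fun i => ⟨pow_ne_zero _ (hq i).ne_zero⟩
    exact Finite.of_equiv _ (DirectSum.addEquivProd (fun i => ZMod (q i ^ e i))).symm.toEquiv
  let g : G ≃+ (Fin n → ℤ) × T :=
    f.trans (AddEquiv.prodCongr (Finsupp.linearEquivFunOnFinite ℤ ℤ (Fin n)).toAddEquiv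
      (AddEquiv.refl T))
  obtain ⟨a1, a2, a3⟩ := mp_equiv p g
  obtain ⟨b1, b2⟩ := mp_prod p (Fin n → ℤ) T
  have c1 : (mp p T).range.index = Nat.card (mp p T).ker := AddSubgroup.index_range
  have hrank : finrank ℤ G = n := by
    rw [g.toIntLinearEquiv.finrank_eq]
    have hfin : Module.Finite ℤ ((Fin n → ℤ) × T) := inferInstance
    have h1 := (LinearMap.ker (LinearMap.fst ℤ (Fin n → ℤ) T)).finrank_quotient_add_finrank
    have h2 : finrank ℤ (((Fin n → ℤ) × T) ⧸ (LinearMap.ker (LinearMap.fst ℤ (Fin n → ℤ) T))) = n := by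
      rw [((LinearMap.fst ℤ (Fin n → ℤ) T).quotKerEquivOfSurjective
        LinearMap.fst_surjective).finrank_eq]
      simp
    have h3 : finrank ℤ (LinearMap.ker (LinearMap.fst ℤ (Fin n → ℤ) T)) = 0 := by
      refine Module.IsTorsion.finrank_eq_zero ?_
      rintro ⟨⟨x, y⟩, hx⟩
      have hx' : x = 0 := hx
      subst hx'
      refine ⟨⟨(Nat.card T : ℤ), mem_nonZeroDivisors_of_ne_zero ?_⟩, ?_⟩
      · exact_mod_cast Nat.card_pos.ne'
      · apply Subtype.ext
        refine Prod.ext (smul_zero _) ?_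
        show (Nat.card T : ℤ) • y = 0
        rw [natCast_zsmul]
        exact card_nsmul_eq_zero'
    rw [h2, h3] at h1
    omega
  have hf : Finite (mp p ((Fin n → ℤ) × T)).ker := by
    refine Nat.finite_of_card_ne_zero ?_
    rw [b2, mp_free p hp, one_mul]
    exact Nat.card_pos.ne'
  refine ⟨a3 hf, ?_⟩
  rw [a1, a2, b1, b2, mp_free p hp, one_mul, mp_pi, c1, hrank]

end mulp

section herbrand

theorem mp_eq_cast (p : ℕ) (B : Type) [AddCommGroup B] :
    (mp p B : B →+ B) = ((p : AddMonoid.End B) : B →+ B) := by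
  ext x
  rw [mp_apply]
  exact (AddMonoid.End.natCast_apply p x).symm

/-- The quotient for `σ - 1` if `1 + σ + ... + σ^(p-1) = 0`. -/
theorem t1 (p : ℕ) (hp : p.Prime) (B : Type) [AddCommGroup B] [Module.Finite ℤ B]
    (σ : AddMonoid.End B) (hσ : ∑ i ∈ Finset.range p, σ ^ i = 0) :
    Finite (AddMonoidHom.ker (σ - 1 : AddMonoid.End B)) ∧
      p ^ finrank ℤ B * Nat.card (AddMonoidHom.ker (σ - 1 : AddMonoid.End B)) ^ (p - 1) =
        (AddMonoidHom.range (σ - 1 : AddMonoid.End B)).index ^ (p - 1) := by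
  obtain ⟨U, V, hU, hV⟩ := exists_UV p hp
  have hΦ : aeval σ (cyclotomic p ℤ) = 0 := by
    have : Fact p.Prime := ⟨hp⟩
    rw [cyclotomic_prime, map_sum]
    simpa using hσ
  have hz : ∀ P : ℤ[X], cyclotomic p ℤ ∣ P → aeval σ P = 0 := by
    rintro P ⟨Q, rfl⟩
    rw [map_mul, hΦ, zero_mul]
  set d : AddMonoid.End B := σ - 1 with hd
  set u : AddMonoid.End B := aeval σ U with hu
  set v : AddMonoid.End B := aeval σ V with hv
  have e1 : d ^ (p - 1) * u = (p : AddMonoid.End B) := by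
    have h := hz _ hU
    rw [map_sub, map_mul, map_pow, map_sub, aeval_X, map_one, map_natCast, sub_eq_zero] at h
    exact h
  have e2 : u * v = 1 := by
    have h := hz _ hV
    rw [map_sub, map_mul, map_one, sub_eq_zero] at h
    exact h
  have hcom : ∀ P Q : ℤ[X], aeval σ P * aeval σ Q = aeval σ Q * aeval σ P := by
    intro P Q
    rw [← map_mul, mul_comm, map_mul]
  have e3 : v * u = 1 := by rw [hv, hu, hcom, ← hu, ← hv, e2]
  have hdX : aeval σ (X - 1 : ℤ[X]) = d := by rw [map_sub, aeval_X, map_one]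
  have e4 : u * d ^ (p - 1) = (p : AddMonoid.End B) := by
    rw [← e1, ← hdX, ← map_pow, hu, hcom]
  -- multiplication by `p`
  obtain ⟨mf, mi⟩ := mp_index p hp.ne_zero B
  have hm : ∀ x : B, (p : AddMonoid.End B) x = mp p B x := fun x => by
    rw [mp_eq_cast]; rfl
  -- finiteness of the kernel
  have hkd : AddMonoidHom.ker d ≤ (mp p B).ker := by
    intro x hx
    have hx' : d x = 0 := hx
    show mp p B x = 0
    rw [← hm, ← e4]
    have h1 : p - 1 = (p - 2) + 1 := by have := hp.two_le; omega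
    show u ((d ^ (p - 1) : AddMonoid.End B) x) = 0
    rw [h1, pow_succ]
    show u ((d ^ (p - 2) : AddMonoid.End B) (d x)) = 0
    rw [hx', map_zero, map_zero]
  have hfd : Finite (AddMonoidHom.ker d) :=
    Finite.of_injective (AddSubgroup.inclusion hkd) (AddSubgroup.inclusion_injective _)
  refine ⟨hfd, ?_⟩
  obtain ⟨hf, hi⟩ := idx_pow d (p - 1)
  have hr : (AddMonoidHom.range (d ^ (p - 1) : AddMonoid.End B)) = (mp p B).range := by
    ext x
    constructor
    · rintro ⟨y, rfl⟩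
      refine ⟨v y, ?_⟩
      rw [← hm, ← e1]
      show (d ^ (p - 1) : AddMonoid.End B) ((u * v) y) = _
      rw [e2]; rfl
    · rintro ⟨y, rfl⟩
      refine ⟨u y, ?_⟩
      rw [← hm, ← e1]; rfl
  have hk : (AddMonoidHom.ker (d ^ (p - 1) : AddMonoid.End B)) = (mp p B).ker := by
    ext x
    constructor
    · intro hx
      have hx' : (d ^ (p - 1) : AddMonoid.End B) x = 0 := hx
      show mp p B x = 0
      rw [← hm, ← e4]
      show u ((d ^ (p - 1) : AddMonoid.End B) x) = 0
      rw [hx', map_zero]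
    · intro hx
      have hx' : (p : AddMonoid.End B) x = 0 := by rw [hm]; exact hx
      rw [← e4] at hx'
      have h1 : v (u ((d ^ (p - 1) : AddMonoid.End B) x)) = v 0 := congrArg v hx'
      rw [map_zero] at h1
      have h2 : v (u ((d ^ (p - 1) : AddMonoid.End B) x)) = (d ^ (p - 1) : AddMonoid.End B) x := by
        show (v * u) _ = _
        rw [e3]; rfl
      rw [h2] at h1
      exact h1
  rw [hr, hk, mi] at hi
  have hpos : 0 < Nat.card (mp p B).ker := Nat.card_pos
  apply Nat.eq_of_mul_eq_mul_right hpos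
  rw [← hi]; ring

/-- Restriction of an endomorphism to a subgroup. -/
theorem restr {A : Type} [AddCommGroup A] (H : AddSubgroup A) (φ : A →+ A) (ρ : H →+ H)
    (h : ∀ x, ((ρ x : H) : A) = φ x) :
    ρ.range.index = (H.map φ).relIndex H ∧
      Nat.card ρ.ker = Nat.card ((φ.ker ⊓ H : AddSubgroup A)) := by
  constructor
  · unfold AddSubgroup.relIndex
    congr 1
    ext x
    rw [AddSubgroup.mem_addSubgroupOf]
    constructor
    · rintro ⟨y, rfl⟩
      exact ⟨y, y.2, (h y).symm⟩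
    · rintro ⟨y, hy, hyx⟩
      exact ⟨⟨y, hy⟩, Subtype.ext ((h _).trans hyx)⟩
  · refine Nat.card_congr
      { toFun := fun x => ⟨(x : H), ?_, (x : H).2⟩
        invFun := fun x => ⟨⟨x, x.2.2⟩, ?_⟩
        left_inv := fun x => rfl
        right_inv := fun x => rfl }
    · show φ (x : H) = 0
      rw [← h, x.2]; rfl
    · apply Subtype.ext
      rw [h]
      exact x.2.1

theorem fin_sub {A : Type} [AddCommGroup A] [Module.Finite ℤ A] (H : AddSubgroup A) :
    Module.Finite ℤ H :=
  Module.Finite.equiv (AddEquiv.toIntLinearEquiv (AddEquiv.mk (Equiv.refl _) (fun _ _ => rfl) :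
    (AddSubgroup.toIntSubmodule H) ≃+ H))

theorem x_hq : Pool.Agent.Helper76.PB.X_HQ := by
  intro p hp A _ _ σ hσ hH A₀ NA hA₀ hNA
  have hpr := hp.out
  set d : AddMonoid.End A := σ - 1 with hd
  set N : AddMonoid.End A := ∑ i ∈ Finset.range p, σ ^ i with hN
  have dapp : ∀ a, d a = σ a - a := fun a => rfl
  have Napp : ∀ a, N a = ∑ i ∈ Finset.range p, (σ ^ i) a := fun a => by
    rw [hN]; exact AddMonoidHom.finsetSum_apply _ _ _
  have hdN : d * N = 0 := by rw [hd, hN, mul_geom_sum, hσ, sub_self]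
  have hNd : N * d = 0 := by rw [hd, hN, geom_sum_mul, hσ, sub_self]
  set B : AddSubgroup A := AddMonoidHom.range d with hB
  have hker : AddMonoidHom.ker d = A₀ := by
    ext a
    rw [hA₀, AddMonoidHom.mem_ker]
    show d a = 0 ↔ _
    rw [dapp, sub_eq_zero]
  have hkerN : AddMonoidHom.ker N = B := by
    ext a
    rw [AddMonoidHom.mem_ker]
    constructor
    · intro h
      have h' : N a = 0 := h
      rw [Napp] at h'
      obtain ⟨b, hb⟩ := hH a h'
      exact ⟨b, hb.symm⟩
    · rintro ⟨b, rfl⟩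
      have := congrArg (fun f : AddMonoid.End A => f b) hNd
      exact this
  have hNAr : AddMonoidHom.range N = NA := by
    ext a
    rw [hNA]
    constructor
    · rintro ⟨b, rfl⟩
      exact ⟨b, Napp b⟩
    · rintro ⟨b, rfl⟩
      exact ⟨b, Napp b⟩
  have hσA₀ : ∀ a ∈ A₀, ∀ i : ℕ, (σ ^ i : AddMonoid.End A) a = a := by
    intro a ha i
    induction i with
    | zero => rfl
    | succ i ih =>
      rw [pow_succ]
      show (σ ^ i : AddMonoid.End A) (σ a) = a
      rw [(hA₀ a).1 ha, ih]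
  have hNp : ∀ a ∈ A₀, N a = p • a := by
    intro a ha
    rw [Napp, Finset.sum_congr rfl fun i _ => hσA₀ a ha i]
    simp
  have hmap : A₀.map N = A₀.map (mp p A) := by
    ext x
    constructor
    · rintro ⟨y, hy, rfl⟩
      exact ⟨y, hy, (hNp y hy).symm⟩
    · rintro ⟨y, hy, rfl⟩
      exact ⟨y, hy, hNp y hy⟩
  -- the two equal indices
  have i1 : (A₀.map N).relIndex NA = (A₀ ⊔ B).index := by
    have h := AddSubgroup.relIndex_map_map N A₀ ⊤
    rw [hkerN, top_sup_eq, AddSubgroup.relIndex_top_right] at h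
    rw [← h, ← hNAr, AddMonoidHom.range_eq_map]
  have i2 : (B.map d).relIndex B = (A₀ ⊔ B).index := by
    have h := AddSubgroup.relIndex_map_map d B ⊤
    rw [hker, top_sup_eq, AddSubgroup.relIndex_top_right, sup_comm] at h
    rw [← h]
    congr 1
    rw [hB, AddMonoidHom.range_eq_map]
  have hle1 : A₀.map N ≤ NA := by
    rintro _ ⟨y, _, rfl⟩
    rw [← hNAr]
    exact ⟨y, rfl⟩
  have hle2 : NA ≤ A₀ := by
    intro x hx
    rw [← hNAr] at hx
    obtain ⟨y, rfl⟩ := hx
    rw [← hker, AddMonoidHom.mem_ker]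
    exact congrArg (fun f : AddMonoid.End A => f y) hdN
  have i3 := AddSubgroup.relIndex_mul_relIndex _ _ _ hle1 hle2
  -- the index of `p A₀`
  have r1 := restr A₀ (mp p A) (mp p A₀) (fun x => rfl)
  have hfA₀ : Module.Finite ℤ A₀ := fin_sub A₀
  obtain ⟨f1, m1⟩ := mp_index p hpr.ne_zero A₀
  -- the index of `d B`
  have hσB : ∀ b ∈ B, σ b ∈ B := by
    rintro _ ⟨y, rfl⟩
    exact ⟨σ y, by
      show d (σ y) = σ (d y)
      rw [dapp, dapp, map_sub]⟩
  let σB : AddMonoid.End B := (AddMonoidHom.comp σ B.subtype).codRestrict B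
    (fun b => hσB b b.2)
  have σBapp : ∀ b : B, ((σB b : B) : A) = σ b := fun b => rfl
  have σBpow : ∀ (i : ℕ) (b : B), (((σB ^ i : AddMonoid.End B) b : B) : A) = (σ ^ i) (b : A) := by
    intro i
    induction i with
    | zero => intro b; rfl
    | succ i ih =>
      intro b
      rw [pow_succ, pow_succ]
      show (((σB ^ i : AddMonoid.End B) (σB b) : B) : A) = (σ ^ i : AddMonoid.End A) (σ b)
      rw [ih, σBapp]
  have hsum : ∑ i ∈ Finset.range p, σB ^ i = 0 := by
    ext b
    have h1 : (∑ i ∈ Finset.range p, σB ^ i : AddMonoid.End B) b =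
        ∑ i ∈ Finset.range p, (σB ^ i : AddMonoid.End B) b := AddMonoidHom.finsetSum_apply _ _ _
    rw [h1, AddSubgroup.val_finsetSum, Finset.sum_congr rfl fun i _ => σBpow i b, ← Napp]
    have h2 : (b : A) ∈ AddMonoidHom.ker N := by rw [hkerN]; exact b.2
    exact h2
  have hfB : Module.Finite ℤ B := fin_sub B
  obtain ⟨f2, m2⟩ := t1 p hpr B σB hsum
  have r2 := restr B d (σB - 1 : AddMonoid.End B) (fun x => rfl)
  -- the two equal kernels
  have hkk : (AddMonoidHom.ker d ⊓ B : AddSubgroup A) = (mp p A).ker ⊓ A₀ := by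
    rw [hker]
    ext x
    constructor
    · rintro ⟨h1, h2⟩
      refine ⟨?_, h1⟩
      rw [← hkerN] at h2
      have h3 : N x = 0 := h2
      rw [hNp x h1] at h3
      exact h3
    · rintro ⟨h1, h2⟩
      refine ⟨h2, ?_⟩
      rw [← hkerN]
      show N x = 0
      rw [hNp x h2]
      exact h1
  -- the ranks
  have hrk : finrank ℤ B + finrank ℤ A₀ = finrank ℤ A := by
    let D : A →ₗ[ℤ] A := AddMonoidHom.toIntLinearMap d
    have h1 := (LinearMap.ker D).finrank_quotient_add_finrank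
    have h2 := D.quotKerEquivRange.finrank_eq
    have h3 : finrank ℤ (LinearMap.range D) = finrank ℤ B := by
      refine (AddEquiv.toIntLinearEquiv (AddEquiv.mk (Equiv.refl _) (fun _ _ => rfl) :
        (LinearMap.range D) ≃+ B)).finrank_eq
    have h4 : finrank ℤ (LinearMap.ker D) = finrank ℤ A₀ := by
      refine (AddEquiv.toIntLinearEquiv (AddEquiv.mk
        (Equiv.subtypeEquivRight fun x => ?_) (fun _ _ => rfl) :
        (LinearMap.ker D) ≃+ A₀)).finrank_eq
      rw [← hker]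
      rfl
    rw [h2, h3, h4] at h1
    exact h1
  -- conclusion
  set I := NA.relIndex A₀ with hI
  set J := (A₀ ⊔ B).index with hJ
  set κ := Nat.card (((mp p A).ker ⊓ A₀ : AddSubgroup A)) with hκ
  rw [i1, hmap, ← r1.1, m1, r1.2] at i3
  rw [r2.1, r2.2, i2, hkk] at m2
  have hκpos : 0 < κ := by
    rw [← r1.2]
    exact Nat.card_pos
  have e1 : (J * I) ^ (p - 1) = (p ^ finrank ℤ A₀ * κ) ^ (p - 1) := by rw [i3]
  rw [mul_pow, ← m2, mul_pow] at e1
  have e2 : I ^ (p - 1) * p ^ finrank ℤ B = (p ^ finrank ℤ A₀) ^ (p - 1) := by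
    apply Nat.eq_of_mul_eq_mul_right (pow_pos hκpos (p - 1))
    rw [← e1]; ring
  have e3 : p * finrank ℤ A₀ = finrank ℤ A₀ * (p - 1) + finrank ℤ A₀ := by
    obtain ⟨n, hn⟩ : ∃ n, p = n + 1 := ⟨p - 1, (Nat.sub_add_cancel hpr.one_le).symm⟩
    rw [hn, Nat.add_sub_cancel]; ring
  rw [← hrk, pow_add, ← mul_assoc, e2, e3, pow_add, pow_mul]

end herbrand

end Pool.Agent.Helper50.PB
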